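import Pool.Agent.J4H20.TP.Stm

/-! # Project TP of helper20: (NAT), the degree of `HP` (helper42) -/

set_option autoImplicit false

namespace Pool.Agent.J4H42.TP

open Polynomial Pool.Agent.J4H20.TP

theorem t_NAT : S_NAT := by
  intro p e k D c M hc hM
  obtain ⟨n, rfl⟩ : ∃ n, p = n + 2 := ⟨p - 2, by have := D.hp2; omega⟩
  have he := D.he
  have hsub : n + 2 - 1 = n + 1 := by omega
  rw [hsub]
  have hr : D.r.degree < ((n + 1) * e : ℕ) := by
    have h := D.hr
    rw [hsub] at h
    exact h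
  set R : ℤ[X] := ∑ m ∈ Finset.range (n + 1), (C M * D.g) ^ m * (C c) ^ (n + 2 - m) * ((n + 2).choose m : ℤ[X]) -
    C (M ^ (n + 2)) * D.r with hR
  have hHP : HP (n + 2) D.g D.r c M = C (((n + 2 : ℕ) : ℤ) * c * M ^ (n + 1)) * D.g ^ (n + 1) + R := by
    unfold HP
    rw [add_pow, Finset.sum_range_succ, Finset.sum_range_succ, hR]
    have h1 : n + 2 - (n + 1) = 1 := by omega
    have h2 : n + 2 - (n + 2) = 0 := by omega
    have h3 : (n + 2).choose (n + 1) = n + 2 := Nat.choose_succ_self_right (n + 1)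
    rw [h1, h2, h3, Nat.choose_self]
    simp only [C_mul, C_pow, map_natCast, pow_zero, pow_one, Nat.cast_one, mul_one]
    push_cast
    ring
  have hRd : R ∈ degreeLT ℤ ((n + 1) * e) := by
    rw [hR]
    refine Submodule.sub_mem _ (Submodule.sum_mem _ (fun m hm => ?_)) ?_
    · rw [mem_degreeLT]
      rw [Finset.mem_range] at hm
      have h1 : (C M * D.g) ^ m * (C c) ^ (n + 2 - m) * ((n + 2).choose m : ℤ[X]) =
          C (M ^ m * c ^ (n + 2 - m) * ((n + 2).choose m : ℤ)) * D.g ^ m := by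
        simp only [C_mul, C_pow, map_natCast, mul_pow]
        ring
      rw [h1]
      refine lt_of_le_of_lt degree_le_natDegree ?_
      have h2 : (C (M ^ m * c ^ (n + 2 - m) * ((n + 2).choose m : ℤ)) * D.g ^ m).natDegree ≤ m * e := by
        refine (natDegree_C_mul_le _ _).trans ?_
        refine (natDegree_pow_le).trans ?_
        rw [D.hgn]
      have h3 : m * e < (n + 1) * e := Nat.mul_lt_mul_of_pos_right hm (by omega)
      exact_mod_cast lt_of_le_of_lt h2 h3
    · have h1 : C (M ^ (n + 2)) * D.r = (M ^ (n + 2)) • D.r := by rw [smul_eq_C_mul]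
      rw [h1]
      exact Submodule.smul_mem _ _ (mem_degreeLT.2 hr)
  rw [mem_degreeLT] at hRd
  have hlead : (((n + 2 : ℕ) : ℤ) * c * M ^ (n + 1)) ≠ 0 :=
    mul_ne_zero (mul_ne_zero (by positivity) hc) (pow_ne_zero _ hM)
  have hdeg : (C (((n + 2 : ℕ) : ℤ) * c * M ^ (n + 1)) * D.g ^ (n + 1)).degree = ((n + 1) * e : ℕ) := by
    rw [degree_C_mul hlead, degree_pow, degree_eq_natDegree D.hg.ne_zero, D.hgn]
    push_cast
    simp [nsmul_eq_mul]
  rw [hHP]
  apply natDegree_eq_of_degree_eq_some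
  rw [degree_add_eq_left_of_degree_lt (by rw [hdeg]; exact hRd), hdeg]

end Pool.Agent.J4H42.TP
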